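import Pool.Agent.SecFill.Closure

/-!
# From the lines through general points to the lines through all points
-/

set_option autoImplicit false

open MvPolynomial

namespace Pool.Agent.SecFillB48

open Pool.Agent.SecFill

/-- The top coefficient of a dehomogenised binary form. -/
lemma coeff_dehom {G : MvPolynomial (Fin 2) ℂ} {k : ℕ} (hG : G.IsHomogeneous k) :
    (dehom G).coeff k = eval ![1, 0] G := by
  conv_rhs => rw [← hm_dehom hG]
  rw [hm, map_sum, Finset.sum_range_succ, Finset.sum_eq_zero]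
  · simp
  · intro j hj
    have hj' : j < k := Finset.mem_range.1 hj
    simp [Nat.sub_ne_zero_of_lt hj']

/-- The top coefficient of the restriction of a form to the line through `p` and `v`. -/
lemma coeff_line {N k : ℕ} {F : MvPolynomial (Fin (N + 1)) ℂ} (hF : F.IsHomogeneous k)
    (p v : Fin (N + 1) → ℂ) : (dehom (onLine p v F)).coeff k = eval p F := by
  rw [coeff_dehom (onLine_hom p v hF), onLine_eval]
  congr 2
  funext j
  simp

lemma natDegree_line {N k : ℕ} {F : MvPolynomial (Fin (N + 1)) ℂ} (hF : F.IsHomogeneous k)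
    (p v : Fin (N + 1) → ℂ) (hp : eval p F ≠ 0) : (dehom (onLine p v F)).natDegree = k := by
  refine le_antisymm (natDegree_dehom (onLine_hom p v hF)) ?_
  apply Polynomial.le_natDegree_of_ne_zero
  rwa [coeff_line hF]

lemma line_ne_zero {N k : ℕ} {F : MvPolynomial (Fin (N + 1)) ℂ} (hF : F.IsHomogeneous k)
    (p v : Fin (N + 1) → ℂ) (hp : eval p F ≠ 0) : dehom (onLine p v F) ≠ 0 := by
  intro h
  apply hp
  rw [← coeff_line hF p v, h, Polynomial.coeff_zero]

/-- Normalisation of a line on which a polynomial of degree `k` divides all forms. -/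
lemma good_of_dvd {N k m : ℕ} (f : Fin m → MvPolynomial (Fin (N + 1)) ℂ) (d : Fin m → ℕ)
    (hf : ∀ i, (f i).IsHomogeneous (d i)) (hd : ∀ i, k ≤ d i)
    (p : Fin (N + 1) → ℂ) (j0 : Fin (N + 1)) (v : Fin (N + 1) → ℂ) (hv0 : v j0 = 0) (hv : v ≠ 0)
    (H : Polynomial ℂ) (hH : H.Monic) (hHk : H.natDegree = k)
    (hdvd : ∀ i, H ∣ dehom (onLine p v (f i))) :
    ∃ v : Fin (N + 1) → ℂ, v j0 = 0 ∧ ‖v‖ = 1 ∧ ∃ a b, ‖a‖ = 1 ∧ Good k d f p v a b := by
  choose Q hQ using hdvd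
  have hvn : ‖v‖ ≠ 0 := norm_ne_zero_iff.2 hv
  have hQd : ∀ i, (Q i).natDegree ≤ d i - k := by
    intro i
    by_cases hQ0 : Q i = 0
    · simp [hQ0]
    · have h1 := natDegree_dehom (onLine_hom p v (hf i))
      rw [hQ i, hH.natDegree_mul' hQ0, hHk] at h1
      omega
  have hkey : ∀ i (x : Fin 2 → ℂ), eval x (hm k H) * eval x (hm (d i - k) (Q i)) =
      eval (fun j => x 0 * p j + x 1 * v j) (f i) := by
    intro i x
    rw [← map_mul, ← hm_mul (le_of_eq hHk) (hQd i), Nat.add_sub_cancel' (hd i), ← hQ i,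
      hm_dehom (onLine_hom p v (hf i)), onLine_eval]
  set c : ℂ := ((‖v‖⁻¹ : ℝ) : ℂ) with hc
  have hcn : ‖c‖ = ‖v‖⁻¹ := by
    rw [hc, Complex.norm_real, Real.norm_eq_abs, abs_of_nonneg (by positivity)]
  set a1 : Fin (k + 1) → ℂ := fun j => H.coeff j * c ^ (k - (j : ℕ)) with ha1
  set b1 : ∀ i, Fin (d i - k + 1) → ℂ := fun i j => (Q i).coeff j * c ^ (d i - k - (j : ℕ)) with hb1
  have ha1n : ‖a1‖ ≠ 0 := by
    rw [norm_ne_zero_iff]
    intro h
    have h1 := congrFun h (Fin.last k)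
    simp only [ha1, Fin.val_last, Nat.sub_self, pow_zero, mul_one, Pi.zero_apply] at h1
    rw [← hHk, hH.coeff_natDegree] at h1
    exact one_ne_zero h1
  set e : ℂ := ((‖a1‖⁻¹ : ℝ) : ℂ) with he
  have hen : ‖e‖ = ‖a1‖⁻¹ := by
    rw [he, Complex.norm_real, Real.norm_eq_abs, abs_of_nonneg (by positivity)]
  have he0 : e ≠ 0 := by
    rw [← norm_ne_zero_iff, hen]; exact inv_ne_zero ha1n
  refine ⟨c • v, ?_, ?_, e • a1, fun i => e⁻¹ • b1 i, ?_, ?_⟩
  · simp [hv0]
  · rw [norm_smul, hcn]; exact inv_mul_cancel₀ hvn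
  · rw [norm_smul, hen]; exact inv_mul_cancel₀ ha1n
  · intro i s t
    rw [form_smul, form_smul, ha1, hb1]
    simp only
    rw [form_scale k c (fun j => H.coeff j), form_scale (d i - k) c (fun j => (Q i).coeff j)]
    have h1 := form_of_poly (e := k) (P := H) ![s, t * c]
    have h2 := form_of_poly (e := d i - k) (P := Q i) ![s, t * c]
    simp only [Matrix.cons_val_zero, Matrix.cons_val_one] at h1 h2
    rw [h1, h2]
    have h3 := hkey i ![s, t * c]
    simp only [Matrix.cons_val_zero, Matrix.cons_val_one] at h3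
    have h4 : (fun j => s * p j + t * (c • v) j) = fun j => s * p j + t * c * v j := by
      funext j; simp [mul_assoc]
    rw [h4, ← h3]
    field_simp

/-- The closure argument. -/
theorem good_all {N k m : ℕ} (f : Fin m → MvPolynomial (Fin (N + 1)) ℂ) (d : Fin m → ℕ)
    (hf : ∀ i, (f i).IsHomogeneous (d i)) (hd : ∀ i, k ≤ d i)
    (F0 : MvPolynomial (Fin (N + 1)) ℂ) (hF0 : F0 ≠ 0) (j0 : Fin (N + 1))
    (hoff : ∀ q, eval q F0 ≠ 0 → ∃ v : Fin (N + 1) → ℂ, v j0 = 0 ∧ v ≠ 0 ∧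
      ∃ H : Polynomial ℂ, H.Monic ∧ H.natDegree = k ∧ ∀ i, H ∣ dehom (onLine q v (f i)))
    (p : Fin (N + 1) → ℂ) :
    ∃ v : Fin (N + 1) → ℂ, v j0 = 0 ∧ ‖v‖ = 1 ∧ ∃ a b, ‖a‖ = 1 ∧ Good k d f p v a b := by
  have hseq : ∀ n : ℕ, ∃ q : Fin (N + 1) → ℂ, ‖q - p‖ ≤ 1 / ((n : ℝ) + 1) ∧
      eval q F0 ≠ 0 := fun n => exists_near hF0 p (by positivity)
  choose q hq hqi using hseq
  have hq' : Filter.Tendsto q Filter.atTop (nhds p) := by
    rw [tendsto_iff_norm_sub_tendsto_zero]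
    refine squeeze_zero (fun n => norm_nonneg _) hq ?_
    exact tendsto_one_div_add_atTop_nhds_zero_nat
  have hq1 : ∀ n, ‖q n - p‖ ≤ 1 := by
    intro n
    refine (hq n).trans ?_
    rw [div_le_one (by positivity)]
    have : (0 : ℝ) ≤ n := Nat.cast_nonneg n
    linarith
  have hgood : ∀ n, ∃ v : Fin (N + 1) → ℂ, v j0 = 0 ∧ ‖v‖ = 1 ∧ ∃ a b, ‖a‖ = 1 ∧
      Good k d f (q n) v a b := by
    intro n
    obtain ⟨v, hv0, hv, H, hH, hHk, hdvd⟩ := hoff (q n) (hqi n)
    exact good_of_dvd f d hf hd (q n) j0 v hv0 hv H hH hHk hdvd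
  choose v hv0 hv1 a b ha hg using hgood
  choose M hM using fun i : Fin m => cofactor_bound (k := k) f d p i
  obtain ⟨v', a', b', φ, hφ, hv', ha', h1, h2, h3⟩ := subseq_lemma d M v a b hv1 ha
    (fun n i => hM i (q n) (v n) (a n) (b n) (hq1 n) (hv1 n) (ha n) (hg n))
  refine ⟨v', ?_, hv', a', b', ha', ?_⟩
  · have h4 : Filter.Tendsto (fun n => v (φ n) j0) Filter.atTop (nhds (v' j0)) :=
      tendsto_pi_nhds.1 h1 j0
    have h5 : (fun n => v (φ n) j0) = fun _ => (0 : ℂ) := by funext n; exact hv0 _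
    rw [h5] at h4
    exact tendsto_nhds_unique tendsto_const_nhds h4 |>.symm
  · exact good_closed f d (fun n => q (φ n)) (fun n => v (φ n)) (fun n => a (φ n))
      (fun n => b (φ n)) (fun n => hg _) p v' a' b' (hq'.comp hφ.tendsto_atTop) h1 h2 h3

/-- **Lines through all points from lines through general points.** -/
theorem lines_of_off {N k : ℕ} {ι : Type} [Fintype ι]
    (f : ι → MvPolynomial (Fin (N + 1)) ℂ) (d : ι → ℕ)
    (hf : ∀ i, (f i).IsHomogeneous (d i)) (hd : ∀ i, f i ≠ 0 → k ≤ d i)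
    (F0 : MvPolynomial (Fin (N + 1)) ℂ) (hF0 : F0 ≠ 0)
    (hoff : ∀ (q : Fin (N + 1) → ℂ) (j0 : Fin (N + 1)), eval q F0 ≠ 0 →
      ∃ v : Fin (N + 1) → ℂ, v j0 = 0 ∧ v ≠ 0 ∧
      ∃ H : Polynomial ℂ, H ≠ 0 ∧ H.natDegree = k ∧ ∀ i, H ∣ dehom (onLine q v (f i)))
    (p : Fin (N + 1) → ℂ) (hp : p ≠ 0) :
    ∃ v : Fin (N + 1) → ℂ, LinearIndependent ℂ ![p, v] ∧
      ∃ h : MvPolynomial (Fin 2) ℂ, h.IsHomogeneous k ∧ h ≠ 0 ∧
        ∀ F ∈ Ideal.span (Set.range f), h ∣ onLine p v F := by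
  classical
  obtain ⟨j0, hj0⟩ : ∃ j0, p j0 ≠ 0 := by
    by_contra hcon
    push Not at hcon
    exact hp (funext hcon)
  have hlin : ∀ v : Fin (N + 1) → ℂ, v j0 = 0 → v ≠ 0 → LinearIndependent ℂ ![p, v] := by
    intro v hv0 hv
    rw [LinearIndependent.pair_iff]
    intro s t hst
    have h1 := congrFun hst j0
    simp only [Pi.add_apply, Pi.smul_apply, smul_eq_mul, hv0, mul_zero, add_zero,
      Pi.zero_apply] at h1
    have hs : s = 0 := (mul_eq_zero.1 h1).resolve_right hj0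
    rw [hs, zero_smul, zero_add] at hst
    exact ⟨hs, (smul_eq_zero.1 hst).resolve_right hv⟩
  let eqv := Fintype.equivFin ι
  let f' : Fin (Fintype.card ι) → MvPolynomial (Fin (N + 1)) ℂ := fun i => f (eqv.symm i)
  let d' : Fin (Fintype.card ι) → ℕ := fun i => if f' i = 0 then k else d (eqv.symm i)
  have hf' : ∀ i, (f' i).IsHomogeneous (d' i) := by
    intro i
    by_cases h : f' i = 0
    · rw [h]; exact isHomogeneous_zero _ _ _
    · simp only [d', if_neg h]; exact hf _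
  have hd' : ∀ i, k ≤ d' i := by
    intro i
    by_cases h : f' i = 0
    · simp only [d', if_pos h]; exact le_rfl
    · simp only [d', if_neg h]; exact hd _ h
  have hoff' : ∀ q, eval q F0 ≠ 0 → ∃ v : Fin (N + 1) → ℂ, v j0 = 0 ∧ v ≠ 0 ∧
      ∃ H : Polynomial ℂ, H.Monic ∧ H.natDegree = k ∧ ∀ i, H ∣ dehom (onLine q v (f' i)) := by
    intro q hq
    obtain ⟨v, hv0, hv, H, hH0, hHk, hdvd⟩ := hoff q j0 hq
    have hl : H.leadingCoeff ≠ 0 := Polynomial.leadingCoeff_ne_zero.2 hH0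
    refine ⟨v, hv0, hv, H * Polynomial.C (H.leadingCoeff)⁻¹,
      Polynomial.monic_mul_leadingCoeff_inv hH0, ?_, fun i => ?_⟩
    · rw [Polynomial.natDegree_mul_C (inv_ne_zero hl), hHk]
    · have hu : IsUnit (Polynomial.C (H.leadingCoeff)⁻¹) := by
        rw [Polynomial.isUnit_C]; exact isUnit_iff_ne_zero.2 (inv_ne_zero hl)
      exact (hu.mul_right_dvd).2 (hdvd _)
  obtain ⟨v, hv0, hv1, a, b, ha, hg⟩ := good_all f' d' hf' hd' F0 hF0 j0 hoff' p
  have hv : v ≠ 0 := by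
    intro h; rw [h, norm_zero] at hv1; exact zero_ne_one hv1
  have ha0 : a ≠ 0 := by
    intro h; rw [h, norm_zero] at ha; exact zero_ne_one ha
  refine ⟨v, hlin v hv0 hv, formP k a, formP_hom k a, formP_ne_zero ha0, fun F hF => ?_⟩
  have hfi : ∀ i, formP k a ∣ onLine p v (f i) := by
    intro i
    refine ⟨formP (d' (eqv i) - k) (b (eqv i)), ?_⟩
    apply MvPolynomial.funext
    intro x
    rw [onLine_eval, map_mul, formP_eval, formP_eval]
    have h1 := hg (eqv i) (x 0) (x 1)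
    simp only [f', Equiv.symm_apply_apply] at h1
    exact h1.symm
  have hle : Ideal.span (Set.range f) ≤
      (Ideal.span {formP k a}).comap (onLine p v : MvPolynomial (Fin (N + 1)) ℂ →+*
        MvPolynomial (Fin 2) ℂ) := by
    rw [Ideal.span_le]
    rintro _ ⟨i, rfl⟩
    exact Ideal.mem_span_singleton.2 (hfi i)
  exact Ideal.mem_span_singleton.1 (hle hF)

end Pool.Agent.SecFillB48
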