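import Pool.Agent.SecFillB48.Closure
import Pool.Agent.PythTwo.CommonZero

/-!
# Lines on which a matrix of forms has a prescribed column echelon form
-/

set_option autoImplicit false

open MvPolynomial

namespace Pool.Agent.SecFillB48

open Pool.Agent.SecFill

section generic

variable {N : ℕ} {W : Type} (p : Fin (N + 1) → ℂ) (j0 : Fin (N + 1))

/-- The unknowns: the coordinates of the direction other than the `j0`-th one, and further ones. -/
abbrev U (N : ℕ) (j0 : Fin (N + 1)) (W : Type) : Type := {j : Fin (N + 1) // j ≠ j0} ⊕ W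

/-- The generic direction. -/
noncomputable def gvar (W : Type) (j : Fin (N + 1)) : MvPolynomial (U N j0 W) ℂ :=
  if h : j ≠ j0 then X (Sum.inl ⟨j, h⟩) else 0

/-- The generic restriction. -/
noncomputable def gres (W : Type) (f : MvPolynomial (Fin (N + 1)) ℂ) :
    Polynomial (MvPolynomial (U N j0 W) ℂ) :=
  aeval (fun j => Polynomial.C (C (p j)) * Polynomial.X + Polynomial.C (gvar j0 W j)) f

/-- The direction belonging to a point. -/
def dirv (x : U N j0 W → ℂ) (j : Fin (N + 1)) : ℂ :=
  if h : j ≠ j0 then x (Sum.inl ⟨j, h⟩) else 0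

lemma map_gres (x : U N j0 W → ℂ) (f : MvPolynomial (Fin (N + 1)) ℂ) :
    (gres p j0 W f).map (eval x) = dehom (onLine p (dirv j0 x) f) := by
  rw [dehom_onLine]
  have h : ((Polynomial.mapAlgHom (aeval x : MvPolynomial (U N j0 W) ℂ →ₐ[ℂ] ℂ)).comp
      (aeval (fun j => Polynomial.C (C (p j)) * Polynomial.X +
        Polynomial.C (gvar j0 W j)) :
        MvPolynomial (Fin (N + 1)) ℂ →ₐ[ℂ] Polynomial (MvPolynomial (U N j0 W) ℂ))) =
      (aeval (fun j => Polynomial.C (p j) * Polynomial.X + Polynomial.C (dirv j0 x j)) :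
        MvPolynomial (Fin (N + 1)) ℂ →ₐ[ℂ] Polynomial ℂ) := by
    apply MvPolynomial.algHom_ext
    intro j
    simp only [AlgHom.comp_apply, aeval_X, Polynomial.coe_mapAlgHom, Polynomial.map_add,
      Polynomial.map_mul, Polynomial.map_C, Polynomial.map_X]
    congr 2
    · congr 1
      simp
    · simp only [gvar, dirv, RingHom.coe_coe]
      split_ifs with hj
      · simp
      · simp
  have h2 := DFunLike.congr_fun h f
  simpa [AlgHom.comp_apply, gres, coe_aeval_eq_eval] using h2

end generic

section tails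

variable {n : ℕ}

lemma tail_natDegree {S : Type} [CommRing S] (a : S) (c : Fin n → S) :
    (Polynomial.C a * Polynomial.X ^ n +
      ∑ j : Fin n, Polynomial.C (c j) * Polynomial.X ^ (j : ℕ)).natDegree ≤ n := by
  refine (Polynomial.natDegree_add_le _ _).trans (max_le ?_ ?_)
  · exact Polynomial.natDegree_C_mul_X_pow_le _ _
  · refine Polynomial.natDegree_sum_le_of_forall_le _ _ fun j _ => ?_
    exact (Polynomial.natDegree_C_mul_X_pow_le _ _).trans j.2.le

lemma tail_coeff {S : Type} [CommRing S] (c : Fin n → S) (j : Fin n) :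
    (∑ j : Fin n, Polynomial.C (c j) * Polynomial.X ^ (j : ℕ)).coeff (j : ℕ) = c j := by
  classical
  rw [Polynomial.finsetSum_coeff]
  simp only [Polynomial.coeff_C_mul, Polynomial.coeff_X_pow]
  rw [Finset.sum_eq_single j]
  · simp
  · intro b _ hb
    rw [if_neg, mul_zero]
    intro h
    exact hb (Fin.ext h.symm)
  · simp

lemma tail_top {S : Type} [CommRing S] (a : S) (c : Fin n → S) :
    (Polynomial.C a * Polynomial.X ^ n +
      ∑ j : Fin n, Polynomial.C (c j) * Polynomial.X ^ (j : ℕ)).coeff n = a := by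
  rw [Polynomial.coeff_add, Polynomial.coeff_C_mul_X_pow, if_pos rfl, Polynomial.finsetSum_coeff,
    Finset.sum_eq_zero, add_zero]
  intro j _
  rw [Polynomial.coeff_C_mul_X_pow, if_neg]
  exact (ne_of_lt j.2).symm

end tails

lemma line_at_zero {N d : ℕ} {F : MvPolynomial (Fin (N + 1)) ℂ} (hF : F.IsHomogeneous d)
    (p : Fin (N + 1) → ℂ) :
    dehom (onLine p 0 F) = Polynomial.C (eval p F) * Polynomial.X ^ d := by
  apply Polynomial.funext
  intro s
  rw [dehom_eval, onLine_eval, Polynomial.eval_mul, Polynomial.eval_C, Polynomial.eval_pow,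
    Polynomial.eval_X]
  have := eval_smul_hom hF s p
  simp only [Matrix.cons_val_zero, Matrix.cons_val_one, Pi.zero_apply, mul_zero, add_zero]
  rw [this]; ring

lemma dehom_onLine_det {N : ℕ} {R : Type} [Fintype R] [DecidableEq R] (p v : Fin (N + 1) → ℂ)
    (A : Matrix R R (MvPolynomial (Fin (N + 1)) ℂ)) :
    dehom (onLine p v A.det) = (Matrix.of fun i l => dehom (onLine p v (A i l))).det := by
  have h := AlgHom.map_det (dehom.comp (onLine p v)) A
  simpa [AlgHom.comp_apply, Matrix.map] using h

/-- **Lines with prescribed echelon form.** -/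
theorem exists_factor {N : ℕ} {R K : Type} [Fintype R] [DecidableEq R] [Fintype K]
    (A : Matrix R R (MvPolynomial (Fin (N + 1)) ℂ)) (B : Matrix R K (MvPolynomial (Fin (N + 1)) ℂ))
    (α : R → R → ℕ) (γ : R → K → ℕ) (g : R → K → ℕ) (q : R → K → ℂ) (e : ℕ)
    (hA : ∀ i l, (A i l).IsHomogeneous (α i l)) (hB : ∀ i j, (B i j).IsHomogeneous (γ i j))
    (hdet : A.det.IsHomogeneous e) (p : Fin (N + 1) → ℂ) (j0 : Fin (N + 1))
    (hp : eval p A.det ≠ 0)
    (hq : ∀ i j, eval p (B i j) = ∑ l, eval p (A i l) * q l j)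
    (hg : ∀ l j, (q l j = 0 ∧ g l j = 0) ∨ ∀ i, A i l = 0 ∨ γ i j = α i l + g l j)
    (hcount : ∑ ij : R × K, γ ij.1 ij.2 < N + ∑ lj : R × K, g lj.1 lj.2) :
    ∃ v : Fin (N + 1) → ℂ, v j0 = 0 ∧ v ≠ 0 ∧ ∃ Q : Matrix R K (Polynomial ℂ), ∀ i j,
      dehom (onLine p v (B i j)) = ∑ l, dehom (onLine p v (A i l)) * Q l j := by
  classical
  let W : Type := Σ lj : R × K, Fin (g lj.1 lj.2)
  let gQ : R → K → Polynomial (MvPolynomial (U N j0 W) ℂ) := fun l j =>
    Polynomial.C (C (q l j)) * Polynomial.X ^ (g l j) +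
      ∑ r : Fin (g l j), Polynomial.C (X (Sum.inr (⟨(l, j), r⟩ : W))) * Polynomial.X ^ (r : ℕ)
  let pT : (U N j0 W → ℂ) → R → K → Polynomial ℂ := fun x l j =>
    ∑ r : Fin (g l j), Polynomial.C (x (Sum.inr (⟨(l, j), r⟩ : W))) * Polynomial.X ^ (r : ℕ)
  let pQ : (U N j0 W → ℂ) → R → K → Polynomial ℂ := fun x l j =>
    Polynomial.C (q l j) * Polynomial.X ^ (g l j) + pT x l j
  let F : (Σ ij : R × K, Fin (γ ij.1 ij.2)) → MvPolynomial (U N j0 W) ℂ := fun s =>
    (gres p j0 W (B s.1.1 s.1.2) -
      ∑ l, gres p j0 W (A s.1.1 l) * gQ l s.1.2).coeff (s.2 : ℕ)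
  have hmQ : ∀ x l j, (gQ l j).map (eval x) = pQ x l j := by
    intro x l j
    simp [gQ, pQ, pT, Polynomial.map_sum]
  let D : (U N j0 W → ℂ) → R → K → Polynomial ℂ := fun x i j =>
    dehom (onLine p (dirv j0 x) (B i j)) -
      ∑ l, dehom (onLine p (dirv j0 x) (A i l)) * pQ x l j
  have hFe : ∀ (x : U N j0 W → ℂ) (s : Σ ij : R × K, Fin (γ ij.1 ij.2)),
      eval x (F s) = (D x s.1.1 s.1.2).coeff (s.2 : ℕ) := by
    intro x s
    simp only [F, D]
    rw [← Polynomial.coeff_map, Polynomial.map_sub, Polynomial.map_sum, map_gres]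
    simp only [Polynomial.map_mul, map_gres, hmQ]
  have hdir0 : dirv (W := W) j0 (0 : U N j0 W → ℂ) = 0 := by
    funext j; simp [dirv]
  have hT0 : ∀ l j, pT 0 l j = 0 := by
    intro l j; simp [pT]
  -- the identity at the origin
  have hid : ∀ i j, dehom (onLine p 0 (B i j)) = ∑ l, dehom (onLine p 0 (A i l)) *
      (Polynomial.C (q l j) * Polynomial.X ^ (g l j)) := by
    intro i j
    rw [line_at_zero (hB i j), hq i j, map_sum, Finset.sum_mul]
    refine Finset.sum_congr rfl fun l _ => ?_
    rw [line_at_zero (hA i l)]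
    rcases hg l j with ⟨h1, _⟩ | h
    · rw [h1]; simp
    · rcases h i with h | h
      · rw [h]; simp
      · rw [h, Polynomial.C_mul, pow_add]; ring
  have hF0 : ∀ s, eval 0 (F s) = 0 := by
    intro s
    rw [hFe]
    have : D 0 s.1.1 s.1.2 = 0 := by
      simp only [D, pQ, hdir0, hT0, add_zero]
      rw [← hid, sub_self]
    rw [this, Polynomial.coeff_zero]
  have hcard : Fintype.card (Σ ij : R × K, Fin (γ ij.1 ij.2)) < Fintype.card (U N j0 W) := by
    have h1 : Fintype.card {j : Fin (N + 1) // j ≠ j0} = N := by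
      rw [Fintype.card_subtype_compl]
      simp
    rw [Fintype.card_sum, h1, Fintype.card_sigma, Fintype.card_sigma]
    simpa using hcount
  obtain ⟨x, hx0, hx⟩ := Pool.Agent.PythTwo.exists_common_zero F hcard hF0
  -- the differences vanish
  have hD : ∀ i j, D x i j = 0 := by
    intro i j
    ext n
    rw [Polynomial.coeff_zero]
    rcases lt_trichotomy n (γ i j) with hn | hn | hn
    · have h1 := hx ⟨(i, j), ⟨n, hn⟩⟩
      rw [hFe] at h1
      exact h1
    · subst hn
      simp only [D]
      rw [Polynomial.coeff_sub, coeff_line (hB i j), hq i j, Polynomial.finsetSum_coeff,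
        sub_eq_zero]
      refine Finset.sum_congr rfl fun l _ => ?_
      rcases hg l j with ⟨h1, h2⟩ | h
      · have h3 : pQ x l j = 0 := by
          simp only [pQ, pT]
          rw [h1, map_zero, zero_mul, zero_add]
          refine Finset.sum_eq_zero fun r _ => ?_
          exact absurd r.2 (by omega)
        rw [h3, h1]; simp
      · rcases h i with h | h
        · rw [h]; simp
        · rw [h, Polynomial.coeff_mul_add_eq_of_natDegree_le
            (natDegree_dehom (onLine_hom p _ (hA i l))) (tail_natDegree _ _),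
            coeff_line (hA i l), tail_top]
    · simp only [D]
      rw [Polynomial.coeff_sub, Polynomial.finsetSum_coeff,
        Polynomial.coeff_eq_zero_of_natDegree_lt
          ((natDegree_dehom (onLine_hom p _ (hB i j))).trans_lt hn), zero_sub, neg_eq_zero]
      refine Finset.sum_eq_zero fun l _ => ?_
      rcases hg l j with ⟨h1, h2⟩ | h
      · have h3 : pQ x l j = 0 := by
          simp only [pQ, pT]
          rw [h1, map_zero, zero_mul, zero_add]
          refine Finset.sum_eq_zero fun r _ => ?_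
          exact absurd r.2 (by omega)
        rw [h3]; simp
      · rcases h i with h | h
        · rw [h]; simp
        · apply Polynomial.coeff_eq_zero_of_natDegree_lt
          refine (Polynomial.natDegree_mul_le).trans_lt ?_
          have e1 := natDegree_dehom (onLine_hom p (dirv j0 x) (hA i l))
          have e2 : (pQ x l j).natDegree ≤ g l j := tail_natDegree _ _
          omega
  refine ⟨dirv j0 x, by simp [dirv], ?_, pQ x, fun i j => sub_eq_zero.1 (hD i j)⟩
  intro hv
  -- then all further unknowns vanish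
  have hT : ∀ l j, pT x l j = 0 := by
    intro l j
    have hM : (Matrix.of fun i l => dehom (onLine p 0 (A i l))).det ≠ 0 := by
      rw [← dehom_onLine_det]
      exact line_ne_zero hdet p 0 hp
    have h1 : (Matrix.of fun i l => dehom (onLine p 0 (A i l))).mulVec (fun l => pT x l j) = 0 := by
      funext i
      have h2 := hD i j
      simp only [D, hv] at h2
      rw [hid, ← Finset.sum_sub_distrib] at h2
      rw [Matrix.mulVec, dotProduct, Pi.zero_apply, ← neg_eq_zero, ← Finset.sum_neg_distrib, ← h2]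
      refine Finset.sum_congr rfl fun l _ => ?_
      simp only [pQ, Matrix.of_apply]
      ring
    exact congrFun (Matrix.eq_zero_of_mulVec_eq_zero hM h1) l
  apply hx0
  funext u
  rcases u with ⟨j, hj⟩ | ⟨⟨l, j⟩, r⟩
  · have h5 := congrFun hv j
    simpa [dirv, hj] using h5
  · have h5 := tail_coeff (fun r : Fin (g l j) => x (Sum.inr (⟨(l, j), r⟩ : W))) r
    have h6 := hT l j
    simp only [pT] at h6
    rw [h6, Polynomial.coeff_zero] at h5
    exact h5.symm

end Pool.Agent.SecFillB48
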