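import Pool.Agent.SecFillB48.Core

/-!
# Matrices of forms: degrees, the count, and Cramer's rule
-/

set_option autoImplicit false

open MvPolynomial

namespace Pool.Agent.SecFillB48

open Pool.Agent.SecFill

section

variable {N : ℕ} {R : Type} [Fintype R] [DecidableEq R]
  {A : Matrix R R (MvPolynomial (Fin (N + 1)) ℂ)} {c d : R → ℕ}

/-- A nonzero determinant has a nonzero term. -/
lemma exists_perm (hA0 : ∀ i l, c i < d l → A i l = 0) (hdet : A.det ≠ 0) :
    ∃ σ : Equiv.Perm R, ∀ i, d i ≤ c (σ i) := by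
  by_contra hcon
  push Not at hcon
  apply hdet
  rw [Matrix.det_apply]
  refine Finset.sum_eq_zero fun σ _ => ?_
  obtain ⟨i, hi⟩ := hcon σ
  have h0 : ∏ i, A (σ i) i = 0 := Finset.prod_eq_zero (Finset.mem_univ i) (hA0 _ _ hi)
  rw [h0, smul_zero]

lemma sum_le (hA0 : ∀ i l, c i < d l → A i l = 0) (hdet : A.det ≠ 0) :
    ∑ l, d l ≤ ∑ i, c i := by
  obtain ⟨σ, hσ⟩ := exists_perm hA0 hdet
  rw [← Equiv.sum_comp σ c]
  exact Finset.sum_le_sum fun i _ => hσ i

/-- The determinant is a form. -/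
lemma det_hom (hA : ∀ i l, (A i l).IsHomogeneous (c i - d l))
    (hA0 : ∀ i l, c i < d l → A i l = 0) : A.det.IsHomogeneous (∑ i, c i - ∑ l, d l) := by
  rw [Matrix.det_apply]
  refine IsHomogeneous.sum _ _ _ fun σ _ => ?_
  by_cases hσ : ∀ i, d i ≤ c (σ i)
  · have h1 : (∏ i, A (σ i) i).IsHomogeneous (∑ i, (c (σ i) - d i)) :=
      IsHomogeneous.prod _ _ _ fun i _ => hA _ _
    have h2 : ∑ i, (c (σ i) - d i) = ∑ i, c i - ∑ l, d l := by
      have h3 : ∑ i, (c (σ i) - d i) + ∑ i, d i = ∑ i, c (σ i) := by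
        rw [← Finset.sum_add_distrib]
        exact Finset.sum_congr rfl fun i _ => Nat.sub_add_cancel (hσ i)
      rw [Equiv.sum_comp σ c] at h3
      omega
    rw [h2] at h1
    rcases Int.units_eq_one_or (Equiv.Perm.sign σ) with h | h
    · rw [h, one_smul]; exact h1
    · rw [h, Units.neg_smul, one_smul]; exact h1.neg
  · push Not at hσ
    obtain ⟨i, hi⟩ := hσ
    have h0 : ∏ i, A (σ i) i = 0 := Finset.prod_eq_zero (Finset.mem_univ i) (hA0 _ _ hi)
    rw [h0, smul_zero]
    exact isHomogeneous_zero _ _ _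

lemma count_le (hA0 : ∀ i l, c i < d l → A i l = 0) (hdet : A.det ≠ 0) {e : ℕ}
    (he : e + ∑ l, d l = ∑ i, c i) (δ : ℕ) : ∑ i, (c i - δ) ≤ e + ∑ l, (d l - δ) := by
  obtain ⟨σ, hσ⟩ := exists_perm hA0 hdet
  rw [← Equiv.sum_comp σ (fun i => c i - δ)]
  have h1 : ∑ i, (c (σ i) - δ) ≤ ∑ i, ((c (σ i) - d i) + (d i - δ)) :=
    Finset.sum_le_sum fun i _ => by have := hσ i; omega
  rw [Finset.sum_add_distrib] at h1
  have h3 : ∑ i, (c (σ i) - d i) + ∑ i, d i = ∑ i, c (σ i) := by
    rw [← Finset.sum_add_distrib]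
    exact Finset.sum_congr rfl fun i _ => Nat.sub_add_cancel (hσ i)
  rw [Equiv.sum_comp σ c] at h3
  omega

/-- **Lines with prescribed echelon form**, with Cramer's rule and the count built in. -/
theorem core {K : Type} [Fintype K] (B : Matrix R K (MvPolynomial (Fin (N + 1)) ℂ))
    (δ : K → ℕ) (e : ℕ)
    (hA : ∀ i l, (A i l).IsHomogeneous (c i - d l)) (hA0 : ∀ i l, c i < d l → A i l = 0)
    (hB : ∀ i j, (B i j).IsHomogeneous (c i - δ j))
    (he : e + ∑ l, d l = ∑ i, c i)
    (hcr : ∀ l j, d l < δ j → (A.updateCol l (fun i => B i j)).det = 0)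
    (p : Fin (N + 1) → ℂ) (j0 : Fin (N + 1)) (hp : eval p A.det ≠ 0)
    (hN : e * Fintype.card K < N) :
    ∃ v : Fin (N + 1) → ℂ, v j0 = 0 ∧ v ≠ 0 ∧ ∃ Q : Matrix R K (Polynomial ℂ), ∀ i j,
      dehom (onLine p v (B i j)) = ∑ l, dehom (onLine p v (A i l)) * Q l j := by
  have hdet : A.det ≠ 0 := by
    intro h; rw [h, map_zero] at hp; exact hp rfl
  have hdh : A.det.IsHomogeneous e := by
    have h1 := det_hom hA hA0
    have h2 : ∑ i, c i - ∑ l, d l = e := by omega
    rwa [h2] at h1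
  refine exists_factor A B (fun i l => c i - d l) (fun i j => c i - δ j) (fun l j => d l - δ j)
    (fun l j => eval p (A.updateCol l (fun i => B i j)).det / eval p A.det) e hA hB hdh p j0 hp
    ?_ ?_ ?_
  · intro i j
    have h1 := congrFun (Matrix.mulVec_cramer A (fun i => B i j)) i
    rw [Matrix.mulVec, dotProduct, Pi.smul_apply, smul_eq_mul] at h1
    have h2 := congrArg (eval p) h1
    rw [map_sum, map_mul] at h2
    simp only [map_mul, Matrix.cramer_apply] at h2
    have h3 : eval p (B i j) = (eval p A.det * eval p (B i j)) / eval p A.det := by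
      field_simp
    rw [h3, ← h2, Finset.sum_div]
    exact Finset.sum_congr rfl fun l _ => by rw [mul_div_assoc]
  · intro l j
    by_cases h : d l < δ j
    · left
      refine ⟨?_, by omega⟩
      simp only [hcr l j h, map_zero, zero_div]
    · right
      intro i
      by_cases h2 : c i < d l
      · left; exact hA0 i l h2
      · right; omega
  · rw [Fintype.sum_prod_type_right, Fintype.sum_prod_type_right]
    simp only
    have h1 : ∑ j : K, ∑ i, (c i - δ j) ≤ ∑ j : K, (e + ∑ l, (d l - δ j)) :=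
      Finset.sum_le_sum fun j _ => count_le hA0 hdet he (δ j)
    rw [Finset.sum_add_distrib, Finset.sum_const, Finset.card_univ, smul_eq_mul, mul_comm] at h1
    omega

end

end Pool.Agent.SecFillB48
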