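import Pool.Agent.SecPf.Ift
import Pool.Agent.SecFill.Basic

/-!
# A matrix of forms with `k` independent rank drops on a line
-/

set_option autoImplicit false

open Filter Topology MvPolynomial

namespace Pool.Agent.SecFillB48

open Pool.Agent.SecPf

/-- The data of the construction. -/
structure DatD (N k m r : ℕ) where
  p : Fin (N + 1) → ℂ
  j0 : Fin (N + 1)
  hp : p j0 ≠ 0
  D : Fin m → ℕ
  E : Fin m → Fin r → ℕ
  e0 : Fin (N + 1)
  he0 : e0 ≠ j0
  e : Fin k × Fin r → Fin (N + 1)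
  he : Function.Injective e
  hej : ∀ a, e a ≠ j0
  hee : ∀ a, e a ≠ e0
  θ : (Σ i, Fin (D i)) → ℂ
  hθ : Function.Injective θ
  ρ : Fin k → Σ i, Fin (D i)
  hρ : Function.Injective ρ
  B : Matrix (Fin m) (Fin m ⊕ Fin r) (MvPolynomial (Fin (N + 1)) ℂ)

namespace DatD

variable {N k m r : ℕ} (S : DatD N k m r)

/-- the parameter along the line -/
noncomputable def sg : MvPolynomial (Fin (N + 1)) ℂ := C (S.p S.j0)⁻¹ * X S.j0

/-- linear forms which vanish at `p` -/
noncomputable def et (j : Fin (N + 1)) : MvPolynomial (Fin (N + 1)) ℂ :=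
  X j - C (S.p j / S.p S.j0) * X S.j0

noncomputable def lin (t : ℂ) : MvPolynomial (Fin (N + 1)) ℂ := S.sg - C t * S.et S.e0

noncomputable def aP (i : Fin m) : MvPolynomial (Fin (N + 1)) ℂ :=
  ∏ b : Fin (S.D i), S.lin (S.θ ⟨i, b⟩)

noncomputable def qP (l : Fin k) : MvPolynomial (Fin (N + 1)) ℂ :=
  ∏ b ∈ Finset.univ.erase (S.ρ l).2, S.lin (S.θ ⟨(S.ρ l).1, b⟩)

noncomputable def sP (i : Fin m) (j : Fin r) : MvPolynomial (Fin (N + 1)) ℂ :=
  ∑ l : Fin k, if (S.ρ l).1 = i then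
    S.et (S.e (l, j)) * S.qP l * S.et S.e0 ^ (S.E i j - S.D i) else 0

/-- the base matrix -/
noncomputable def A0 : Matrix (Fin m) (Fin m ⊕ Fin r) (MvPolynomial (Fin (N + 1)) ℂ) := fun i y =>
  match y with
  | Sum.inl i' => if i = i' then S.aP i else 0
  | Sum.inr j => S.sP i j

/-- the direction -/
noncomputable def vv (ξ : Fin k × Fin r → ℂ) : Fin (N + 1) → ℂ :=
  fun i => (if i = S.e0 then 1 else 0) + ∑ a : Fin k × Fin r, if i = S.e a then ξ a else 0

lemma vv_j0 (ξ : Fin k × Fin r → ℂ) : S.vv ξ S.j0 = 0 := by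
  rw [vv, if_neg (fun h => S.he0 h.symm), zero_add]
  exact Finset.sum_eq_zero fun a _ => if_neg (fun h => S.hej a h.symm)

lemma vv_e0 (ξ : Fin k × Fin r → ℂ) : S.vv ξ S.e0 = 1 := by
  rw [vv, if_pos rfl, Finset.sum_eq_zero fun a _ => if_neg (fun h => S.hee a h.symm), add_zero]

lemma vv_e (ξ : Fin k × Fin r → ℂ) (a : Fin k × Fin r) : S.vv ξ (S.e a) = ξ a := by
  rw [vv, if_neg (S.hee a), zero_add, Finset.sum_eq_single a]
  · rw [if_pos rfl]
  · intro a' _ ha'
    exact if_neg (fun h => ha' (S.he h).symm)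
  · intro h; exact absurd (Finset.mem_univ _) h

/-- the point -/
noncomputable def pt (τ : ℂ) (ξ : Fin k × Fin r → ℂ) : Fin (N + 1) → ℂ :=
  fun i => τ * S.p i + S.vv ξ i

lemma eval_sg (τ : ℂ) (ξ : Fin k × Fin r → ℂ) : eval (S.pt τ ξ) S.sg = τ := by
  simp only [sg, map_mul, eval_C, eval_X, pt, vv_j0, add_zero]
  field_simp [S.hp]

lemma eval_et (τ : ℂ) (ξ : Fin k × Fin r → ℂ) (j : Fin (N + 1)) :
    eval (S.pt τ ξ) (S.et j) = S.vv ξ j := by
  have := S.hp
  simp only [et, map_sub, map_mul, eval_C, eval_X, pt, vv_j0, add_zero]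
  field_simp
  ring

lemma eval_lin (τ : ℂ) (ξ : Fin k × Fin r → ℂ) (t : ℂ) : eval (S.pt τ ξ) (S.lin t) = τ - t := by
  rw [lin, map_sub, map_mul, eval_sg, eval_C, eval_et, vv_e0, mul_one]

noncomputable def av (i : Fin m) (τ : ℂ) : ℂ := ∏ b : Fin (S.D i), (τ - S.θ ⟨i, b⟩)

noncomputable def qv (l : Fin k) (τ : ℂ) : ℂ :=
  ∏ b ∈ Finset.univ.erase (S.ρ l).2, (τ - S.θ ⟨(S.ρ l).1, b⟩)

lemma eval_aP (τ : ℂ) (ξ : Fin k × Fin r → ℂ) (i : Fin m) :
    eval (S.pt τ ξ) (S.aP i) = S.av i τ := by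
  simp only [aP, av, map_prod, eval_lin]

lemma eval_qP (τ : ℂ) (ξ : Fin k × Fin r → ℂ) (l : Fin k) :
    eval (S.pt τ ξ) (S.qP l) = S.qv l τ := by
  simp only [qP, qv, map_prod, eval_lin]

lemma eval_sP (τ : ℂ) (ξ : Fin k × Fin r → ℂ) (i : Fin m) (j : Fin r) :
    eval (S.pt τ ξ) (S.sP i j) = ∑ l : Fin k, if (S.ρ l).1 = i then ξ (l, j) * S.qv l τ else 0 := by
  rw [sP, map_sum]
  refine Finset.sum_congr rfl fun l _ => ?_
  split_ifs with h
  · rw [map_mul, map_mul, map_pow, eval_et, eval_et, eval_qP, vv_e, vv_e0, one_pow, mul_one]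
  · simp

/-- the root of index `l` -/
noncomputable def th (l : Fin k) : ℂ := S.θ (S.ρ l)

noncomputable def kap (l : Fin k) : ℂ := S.qv l (S.th l)

lemma kap_ne (l : Fin k) : S.kap l ≠ 0 := by
  rw [kap, qv, Finset.prod_ne_zero_iff]
  intro b hb h
  have h1 : S.θ (S.ρ l) = S.θ ⟨(S.ρ l).1, b⟩ := sub_eq_zero.1 h
  have h2 := S.hθ h1
  have h3 : (S.ρ l).2 = b := eq_of_heq (Sigma.ext_iff.1 h2).2
  exact (Finset.mem_erase.1 hb).1 h3.symm

lemma av_ne {l : Fin k} {i : Fin m} (hi : i ≠ (S.ρ l).1) : S.av i (S.th l) ≠ 0 := by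
  rw [av, Finset.prod_ne_zero_iff]
  intro b _ h
  have h1 : S.θ (S.ρ l) = S.θ ⟨i, b⟩ := sub_eq_zero.1 h
  have h2 := S.hθ h1
  exact hi (by rw [h2])

lemma qv_zero {l l' : Fin k} (h : l' ≠ l) (hi : (S.ρ l').1 = (S.ρ l).1) :
    S.qv l' (S.th l) = 0 := by
  have hex : ∀ (s : Σ i, Fin (S.D i)) (i : Fin m), i = s.1 → ∃ b, (⟨i, b⟩ : Σ i, Fin (S.D i)) = s := by
    rintro ⟨_, a⟩ _ rfl
    exact ⟨a, rfl⟩
  obtain ⟨b, hb⟩ := hex (S.ρ l) (S.ρ l').1 hi
  rw [qv, Finset.prod_eq_zero_iff]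
  refine ⟨b, Finset.mem_erase.2 ⟨?_, Finset.mem_univ _⟩, ?_⟩
  · rintro rfl
    exact h (S.hρ hb)
  · rw [hb, th, sub_self]

lemma av_eq (l : Fin k) (τ : ℂ) : S.av (S.ρ l).1 τ = (τ - S.th l) * S.qv l τ := by
  rw [av, qv, ← Finset.mul_prod_erase Finset.univ _ (Finset.mem_univ (S.ρ l).2)]
  rfl

/-- The space of the unknowns: parameters on the line, directions, left kernel vectors. -/
abbrev Un (k m r : ℕ) : Type := (Fin k → ℂ) × (Fin k × Fin r → ℂ) × (Fin k → Fin m → ℂ)

/-- The space of the equations. -/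
abbrev Eqs (k m r : ℕ) : Type := Fin k → (Fin m ⊕ Fin r) → ℂ

/-- The matrix at a point for the parameter `z`. -/
noncomputable def Mz (z τ : ℂ) (ξ : Fin k × Fin r → ℂ) (i : Fin m) (y : Fin m ⊕ Fin r) : ℂ :=
  eval (S.pt τ ξ) (S.A0 i y) + z * eval (S.pt τ ξ) (S.B i y)

/-- The left kernel vector. -/
noncomputable def wv (l : Fin k) (W : Fin m → ℂ) (i : Fin m) : ℂ := if i = (S.ρ l).1 then 1 else W i

/-- The system. -/
noncomputable def Phi (q : ℂ × Un k m r) : Eqs k m r := fun l y =>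
  ∑ i, S.wv l (q.2.2.2 l) i * S.Mz q.1 (q.2.1 l) q.2.2.1 i y

/-- The base point. -/
noncomputable def u0 : Un k m r := (S.th, 0, 0)

lemma contDiff_Phi : ContDiff ℂ 1 S.Phi := by
  rw [contDiff_pi]
  intro l
  rw [contDiff_pi]
  intro y
  unfold Phi
  refine ContDiff.sum fun i _ => ?_
  have hpt : ContDiff ℂ 1 (fun q : ℂ × Un k m r => S.pt (q.2.1 l) q.2.2.1) := by
    rw [contDiff_pi]
    intro i
    unfold pt vv
    refine ContDiff.add (by fun_prop) (ContDiff.add contDiff_const ?_)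
    refine ContDiff.sum fun a _ => ?_
    split_ifs
    · fun_prop
    · exact contDiff_const
  refine ContDiff.mul ?_ ?_
  · unfold wv
    split_ifs
    · exact contDiff_const
    · fun_prop
  · unfold Mz
    exact ((contDiff_eval _).comp hpt).add (contDiff_fst.mul ((contDiff_eval _).comp hpt))

/-- The value of the derivative. -/
noncomputable def val (δ : Un k m r) (l : Fin k) (y : Fin m ⊕ Fin r) : ℂ :=
  match y with
  | Sum.inl i => if i = (S.ρ l).1 then δ.1 l * S.kap l else S.av i (S.th l) * δ.2.2 l i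
  | Sum.inr j => δ.2.1 (l, j) * S.kap l

lemma continuous_qv (l : Fin k) : Continuous (S.qv l) := by
  unfold qv
  exact continuous_finsetProd _ fun b _ => by fun_prop

lemma continuous_av (i : Fin m) : Continuous (S.av i) := by
  unfold av
  exact continuous_finsetProd _ fun b _ => by fun_prop

lemma wv_self (l : Fin k) (W : Fin m → ℂ) : S.wv l W (S.ρ l).1 = 1 := by
  simp [wv]

lemma wv_other (l : Fin k) (W : Fin m → ℂ) {i : Fin m} (hi : i ≠ (S.ρ l).1) :
    S.wv l W i = W i := by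
  rw [wv, if_neg hi]

lemma continuous_wv (l : Fin k) (W : Fin m → ℂ) (i : Fin m) :
    Continuous (fun t : ℂ => S.wv l (t • W) i) := by
  unfold wv
  split_ifs
  · exact continuous_const
  · simp only [Pi.smul_apply, smul_eq_mul]
    fun_prop

lemma col_inl (τ : ℂ) (ξ : Fin k × Fin r → ℂ) (l : Fin k) (W : Fin m → ℂ) (i' : Fin m) :
    ∑ i, S.wv l W i * S.Mz 0 τ ξ i (Sum.inl i') = S.wv l W i' * S.av i' τ := by
  rw [Finset.sum_eq_single i']
  · congr 1
    rw [Mz, zero_mul, add_zero]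
    simp [A0, eval_aP]
  · intro i _ hne
    have : S.A0 i (Sum.inl i') = 0 := by simp [A0, hne]
    rw [Mz, this, zero_mul, add_zero, map_zero, mul_zero]
  · intro h; exact absurd (Finset.mem_univ _) h

lemma col_inr (τ : ℂ) (ξ : Fin k × Fin r → ℂ) (l : Fin k) (W : Fin m → ℂ) (j : Fin r) :
    ∑ i, S.wv l W i * S.Mz 0 τ ξ i (Sum.inr j) = ∑ i, S.wv l W i *
      (∑ l' : Fin k, if (S.ρ l').1 = i then ξ (l', j) * S.qv l' τ else 0) := by
  refine Finset.sum_congr rfl fun i _ => ?_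
  rw [Mz, zero_mul, add_zero]
  have : S.A0 i (Sum.inr j) = S.sP i j := rfl
  rw [this, eval_sP]

lemma path (δ : Un k m r) (l : Fin k) (y : Fin m ⊕ Fin r) : ∃ g : ℂ → ℂ, Continuous g ∧
    (∀ t : ℂ, S.Phi (0, S.u0 + t • δ) l y = t * g t) ∧ g 0 = S.val δ l y := by
  have hPhi : ∀ t : ℂ, S.Phi (0, S.u0 + t • δ) l y =
      ∑ i, S.wv l (t • δ.2.2 l) i * S.Mz 0 (S.th l + t * δ.1 l) (t • δ.2.1) i y := by
    intro t
    simp [Phi, u0]
  rcases y with i' | j
  · by_cases hi : i' = (S.ρ l).1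
    · subst hi
      refine ⟨fun t => δ.1 l * S.qv l (S.th l + t * δ.1 l), ?_, fun t => ?_, ?_⟩
      · exact continuous_const.mul ((S.continuous_qv l).comp (by fun_prop))
      · rw [hPhi, col_inl, av_eq, wv_self]
        ring
      · simp [val, kap]
    · refine ⟨fun t => S.av i' (S.th l + t * δ.1 l) * δ.2.2 l i', ?_, fun t => ?_, ?_⟩
      · exact ((S.continuous_av i').comp (by fun_prop)).mul continuous_const
      · rw [hPhi, col_inl, S.wv_other l _ hi]
        simp only [Pi.smul_apply, smul_eq_mul]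
        ring
      · simp [val, hi]
  · refine ⟨fun t => ∑ i, S.wv l (t • δ.2.2 l) i *
      (∑ l' : Fin k, if (S.ρ l').1 = i then δ.2.1 (l', j) * S.qv l' (S.th l + t * δ.1 l) else 0),
      ?_, fun t => ?_, ?_⟩
    · refine continuous_finsetSum _ fun i _ => Continuous.mul (S.continuous_wv _ _ _)
        (continuous_finsetSum _ fun l' _ => ?_)
      split_ifs
      · exact continuous_const.mul ((S.continuous_qv l').comp (by fun_prop))
      · exact continuous_const
    · rw [hPhi, col_inr, Finset.mul_sum]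
      refine Finset.sum_congr rfl fun i _ => ?_
      have h1 : ∀ l' : Fin k, (if (S.ρ l').1 = i then
          (t • δ.2.1) (l', j) * S.qv l' (S.th l + t * δ.1 l) else 0) =
          t * (if (S.ρ l').1 = i then δ.2.1 (l', j) * S.qv l' (S.th l + t * δ.1 l) else 0) := by
        intro l'
        split_ifs
        · simp only [Pi.smul_apply, smul_eq_mul]; ring
        · simp
      simp only [h1, ← Finset.mul_sum]
      ring
    · simp only [zero_mul, add_zero, zero_smul]
      rw [Finset.sum_eq_single (S.ρ l).1]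
      · rw [wv_self, one_mul, Finset.sum_eq_single l]
        · simp [val, kap]
        · intro l' _ hl'
          split_ifs with h2
          · rw [S.qv_zero hl' h2, mul_zero]
          · rfl
        · intro h; exact absurd (Finset.mem_univ _) h
      · intro i _ hi
        rw [S.wv_other l _ hi, Pi.zero_apply, zero_mul]
      · intro h; exact absurd (Finset.mem_univ _) h

lemma surj (R : Eqs k m r) : ∃ δ : Un k m r, ∀ l y, S.val δ l y = R l y := by
  refine ⟨(fun l => R l (Sum.inl (S.ρ l).1) / S.kap l, fun a => R a.1 (Sum.inr a.2) / S.kap a.1,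
    fun l i => R l (Sum.inl i) / S.av i (S.th l)), ?_⟩
  intro l y
  have h0 := S.kap_ne l
  rcases y with i' | j
  · by_cases hi : i' = (S.ρ l).1
    · subst hi
      simp only [val, if_true]
      field_simp
    · have h1 := S.av_ne hi
      simp only [val, hi, if_false]
      field_simp
  · simp only [val]
    field_simp

lemma Phi_u0 : S.Phi (0, S.u0) = 0 := by
  funext l y
  obtain ⟨g, _, h2, _⟩ := S.path 0 l y
  have := h2 0
  simpa using this

lemma th_inj : Function.Injective S.th := S.hθ.comp S.hρ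

/-- For small parameters the matrix `A0 + z B` drops rank at `k` points of a line. -/
lemma near : ∀ᶠ z in 𝓝 (0 : ℂ), ∃ (τ : Fin k → ℂ) (ξ : Fin k × Fin r → ℂ), Function.Injective τ ∧
    ∀ (l : Fin k) (κ : Fin m → Fin m ⊕ Fin r),
      (Matrix.of fun i i' => S.Mz z (τ l) ξ i (κ i')).det = 0 := by
  have hO : {u : Un k m r | Function.Injective u.1} ∈ 𝓝 S.u0 := by
    have h1 : {u : Un k m r | Function.Injective u.1} =
        ⋂ (j : Fin k) (j' : Fin k) (_ : j ≠ j'), {u : Un k m r | u.1 j ≠ u.1 j'} := by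
      ext u
      simp only [Set.mem_ofPred_eq, Set.mem_iInter]
      constructor
      · intro h j j' hj hu; exact hj (h hu)
      · intro h j j' hu
        by_contra hne
        exact h j j' hne hu
    have h2 : IsOpen {u : Un k m r | Function.Injective u.1} := by
      rw [h1]
      refine isOpen_iInter_of_finite fun j => isOpen_iInter_of_finite fun j' => ?_
      refine isOpen_iInter_of_finite fun _ => ?_
      exact isOpen_ne_fun (by fun_prop) (by fun_prop)
    exact h2.mem_nhds S.th_inj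
  have hift := ift S.Phi S.u0 S.contDiff_Phi.contDiffAt S.Phi_u0 (fun R => by
    obtain ⟨δ, hδ⟩ := S.surj R
    refine ⟨δ, ?_⟩
    rw [hasDerivAt_pi]
    intro l
    rw [hasDerivAt_pi]
    intro y
    obtain ⟨g, hg, h1, h2⟩ := S.path δ l y
    have h3 : (fun t : ℂ => S.Phi (0, S.u0 + t • δ) l y) = fun t => t * g t := funext h1
    rw [h3]
    exact hasDerivAt_mul_id hg.continuousAt (h2.trans (hδ l y))) _ hO
  filter_upwards [hift] with z hz
  obtain ⟨u, hu1, hu2⟩ := hz
  refine ⟨u.1, u.2.1, hu1, fun l κ => ?_⟩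
  apply Matrix.exists_vecMul_eq_zero_iff.1
  refine ⟨S.wv l (u.2.2 l), ?_, ?_⟩
  · intro h
    have := congrFun h (S.ρ l).1
    rw [wv_self] at this
    exact one_ne_zero this
  · funext i'
    have := congrFun (congrFun hu2 l) (κ i')
    simpa [Phi, Matrix.vecMul, dotProduct] using this

end DatD

end Pool.Agent.SecFillB48
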