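import Pool.Agent.SecFillB48.Degrees

/-!
# Multisecant lines of determinantal and Pfaffian schemes
-/

set_option autoImplicit false

open MvPolynomial

namespace Pool.Agent.SecFillB48

open Pool.Agent.SecFill

/-- `p` lies on a `k`-secant line of the scheme `X` in `ℙ^N` defined by the forms `f i`: the line
through `p` and some further point `v` lies in `X` or meets `X` in a scheme of length at least
`k`. That is, a nonzero binary form `h` of degree `k` divides the restriction to that line of
every element of the ideal of `X`. -/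
def OnSecant {N : ℕ} {ι : Type} (k : ℕ) (f : ι → MvPolynomial (Fin (N + 1)) ℂ)
    (p : Fin (N + 1) → ℂ) : Prop :=
  ∃ v : Fin (N + 1) → ℂ, LinearIndependent ℂ ![p, v] ∧
    ∃ h : MvPolynomial (Fin 2) ℂ, h.IsHomogeneous k ∧ h ≠ 0 ∧
      ∀ F ∈ Ideal.span (Set.range f), h ∣ onLine p v F

/-- **Determinantal schemes.** -/
theorem determinantal {N m r k : ℕ} (M : Matrix (Fin m) (Fin (m + r)) (MvPolynomial (Fin (N + 1)) ℂ))
    (c : Fin m → ℕ) (d : Fin (m + r) → ℕ)
    (hM : ∀ i j, (M i j).IsHomogeneous (c i - d j)) (hM0 : ∀ i j, c i < d j → M i j = 0)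
    (hk : ∃ κ : Fin m → Fin (m + r), (M.submatrix id κ).det ≠ 0 ∧ k + ∑ l, d (κ l) = ∑ i, c i)
    (hmin : ∀ κ : Fin m → Fin (m + r), (M.submatrix id κ).det ≠ 0 →
      k + ∑ l, d (κ l) ≤ ∑ i, c i)
    (hN : k * r < N) (p : Fin (N + 1) → ℂ) (hp : p ≠ 0) :
    OnSecant k (fun κ : Fin m → Fin (m + r) => (M.submatrix id κ).det) p := by
  classical
  obtain ⟨κ0, hκ0, hdeg⟩ := hk
  have hinj : Function.Injective κ0 := by
    intro a b hab
    by_contra hne
    apply hκ0
    exact Matrix.det_zero_of_column_eq hne fun i => by simp [hab]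
  have hhom : ∀ κ : Fin m → Fin (m + r), (M.submatrix id κ).det.IsHomogeneous
      (∑ i, c i - ∑ l, d (κ l)) := fun κ =>
    det_hom (A := M.submatrix id κ) (c := c) (d := fun l => d (κ l))
      (fun i l => hM i (κ l)) (fun i l => hM0 i (κ l))
  refine lines_of_off _ (fun κ => ∑ i, c i - ∑ l, d (κ l)) hhom ?_ _ hκ0 ?_ p hp
  · intro κ hκ
    have := hmin κ hκ
    omega
  · intro q j0 hq
    have hcardK : Fintype.card {j : Fin (m + r) // j ∉ Set.range κ0} = r := by
      rw [Fintype.card_subtype_compl, Set.card_range_of_injective hinj]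
      simp
    obtain ⟨v, hv0, hv, Q, hQ⟩ := core (A := M.submatrix id κ0) (c := c) (d := fun l => d (κ0 l))
      (K := {j : Fin (m + r) // j ∉ Set.range κ0}) (fun i j => M i j) (fun j => d j) k
      (fun i l => hM i (κ0 l)) (fun i l => hM0 i (κ0 l)) (fun i j => hM i j) hdeg
      (by
        intro l j hlt
        by_contra hne
        have h1 : (M.submatrix id κ0).updateCol l (fun i => M i j) =
            M.submatrix id (Function.update κ0 l (j : Fin (m + r))) := by
          ext1 i l'
          by_cases h : l' = l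
          · subst h; simp
          · simp [Matrix.updateCol_ne h, Function.update_of_ne h]
        rw [h1] at hne
        have h2 := hmin _ hne
        have h3 : ∑ l', d (Function.update κ0 l (j : Fin (m + r)) l') + d (κ0 l) =
            ∑ l', d (κ0 l') + d j := by
          rw [← Finset.add_sum_erase _ _ (Finset.mem_univ l),
            ← Finset.add_sum_erase Finset.univ (fun l' => d (κ0 l')) (Finset.mem_univ l)]
          have h4 : ∑ x ∈ Finset.univ.erase l, d (Function.update κ0 l (j : Fin (m + r)) x) =
              ∑ x ∈ Finset.univ.erase l, d (κ0 x) :=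
            Finset.sum_congr rfl fun x hx => by
              rw [Function.update_of_ne (Finset.ne_of_mem_erase hx)]
          rw [h4, Function.update_self]
          ring
        omega)
      q j0 hq (by rw [hcardK]; exact hN)
    refine ⟨v, hv0, hv, dehom (onLine q v (M.submatrix id κ0).det), ?_, ?_, ?_⟩
    · exact line_ne_zero (hhom κ0) q v hq
    · rw [natDegree_line (hhom κ0) q v hq]
      omega
    · -- all columns are combinations of the columns in `κ0`
      have hcol : ∀ j : Fin (m + r), ∃ w : Fin m → Polynomial ℂ, ∀ i,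
          dehom (onLine q v (M i j)) = ∑ l, dehom (onLine q v (M i (κ0 l))) * w l := by
        intro j
        by_cases hj : j ∈ Set.range κ0
        · obtain ⟨l, rfl⟩ := hj
          refine ⟨Pi.single l 1, fun i => ?_⟩
          rw [Finset.sum_eq_single l]
          · simp
          · intro l' _ hl'
            simp [Pi.single_eq_of_ne hl']
          · simp
        · exact ⟨fun l => Q l ⟨j, hj⟩, fun i => hQ i ⟨j, hj⟩⟩
      choose w hw using hcol
      intro κ
      rw [dehom_onLine_det, dehom_onLine_det]
      have h1 : (Matrix.of fun i l => dehom (onLine q v ((M.submatrix id κ) i l))) =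
          (Matrix.of fun i l => dehom (onLine q v ((M.submatrix id κ0) i l))) *
            (Matrix.of fun l' l => w (κ l) l') := by
        ext1 i l
        rw [Matrix.mul_apply]
        simp only [Matrix.of_apply, Matrix.submatrix_apply, id_eq]
        exact hw (κ l) i
      rw [h1, Matrix.det_mul]
      exact dvd_mul_right _ _

/-- **The syzygy criterion**, in general form. -/
theorem syzygies {N e : ℕ} {R : Type} [Fintype R] [DecidableEq R]
    (f0 : MvPolynomial (Fin (N + 1)) ℂ) (f : R → MvPolynomial (Fin (N + 1)) ℂ)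
    (A : Matrix R R (MvPolynomial (Fin (N + 1)) ℂ)) (B : R → MvPolynomial (Fin (N + 1)) ℂ)
    (k : ℕ) (c d : R → ℕ) (hf0 : f0.IsHomogeneous k) (hf : ∀ l, (f l).IsHomogeneous (d l))
    (hA : ∀ i l, (A i l).IsHomogeneous (c i - d l)) (hA0 : ∀ i l, c i < d l → A i l = 0)
    (hB : ∀ i, (B i).IsHomogeneous (c i - k))
    (hsyz : ∀ i, ∑ l, A i l * f l + B i * f0 = 0)
    (h0 : f0 ≠ 0) (hmin : ∀ l, f l ≠ 0 → k ≤ d l) (hdet : A.det ≠ 0)
    (he : e + ∑ l, d l = ∑ i, c i) (hN : e < N) (p : Fin (N + 1) → ℂ) (hp : p ≠ 0) :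
    OnSecant k (fun o : Option R => o.elim f0 f) p := by
  classical
  have hdh : A.det.IsHomogeneous e := by
    have h1 := det_hom hA hA0
    have h2 : ∑ i, c i - ∑ l, d l = e := by omega
    rwa [h2] at h1
  refine lines_of_off _ (fun o : Option R => o.elim k d) ?_ ?_ (A.det * f0)
    (mul_ne_zero hdet h0) ?_ p hp
  · rintro (_ | l)
    · exact hf0
    · exact hf l
  · rintro (_ | l) hl
    · exact le_rfl
    · exact hmin l hl
  · intro q j0 hq
    rw [map_mul] at hq
    have hq1 := left_ne_zero_of_mul hq
    have hq2 := right_ne_zero_of_mul hq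
    have hAf : A.mulVec f = -f0 • B := by
      funext i
      have h1 := hsyz i
      simp only [Matrix.mulVec, dotProduct, Pi.smul_apply, smul_eq_mul]
      linear_combination h1
    obtain ⟨v, hv0, hv, Q, hQ⟩ := core (A := A) (c := c) (d := d) (K := Unit)
      (fun i _ => B i) (fun _ => k) e hA hA0 (fun i _ => hB i) he
      (by
        intro l _ hlt
        have hfl : f l = 0 := by
          by_contra hne
          have := hmin l hne
          omega
        have h1 : A.cramer (A.mulVec f) l = 0 := by
          rw [Matrix.cramer_eq_adjugate_mulVec, Matrix.mulVec_mulVec, Matrix.adjugate_mul,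
            Matrix.smul_mulVec, Matrix.one_mulVec, Pi.smul_apply, hfl, smul_zero]
        rw [hAf, map_smul, Pi.smul_apply, smul_eq_mul, Matrix.cramer_apply] at h1
        exact (mul_eq_zero.1 h1).resolve_left (neg_ne_zero.2 h0))
      q j0 hq1 (by simpa using hN)
    refine ⟨v, hv0, hv, dehom (onLine q v f0), line_ne_zero hf0 q v hq2,
      natDegree_line hf0 q v hq2, ?_⟩
    have hM : (Matrix.of fun i l => dehom (onLine q v (A i l))).det ≠ 0 := by
      rw [← dehom_onLine_det]
      exact line_ne_zero hdh q v hq1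
    have h1 : (Matrix.of fun i l => dehom (onLine q v (A i l))).mulVec
        (fun l => dehom (onLine q v (f l)) + Q l () * dehom (onLine q v f0)) = 0 := by
      funext i
      have h2 := congrArg (fun F => dehom (onLine q v F)) (hsyz i)
      simp only [map_add, map_sum, map_mul, map_zero] at h2
      rw [hQ i ()] at h2
      simp only [Matrix.mulVec, dotProduct, Matrix.of_apply, Pi.zero_apply]
      rw [← h2, Finset.sum_mul, ← Finset.sum_add_distrib]
      exact Finset.sum_congr rfl fun l _ => by ring
    have h3 := Matrix.eq_zero_of_mulVec_eq_zero hM h1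
    rintro (_ | l)
    · exact dvd_rfl
    · have h4 := congrFun h3 l
      simp only [Pi.zero_apply] at h4
      exact ⟨-Q l (), by simp only [Option.elim]; linear_combination h4⟩

/-- **Pfaffian schemes.** -/
theorem pfaffian {N m k : ℕ}
    (M : Matrix (Fin (2 * m + 1)) (Fin (2 * m + 1)) (MvPolynomial (Fin (N + 1)) ℂ))
    (f : Fin (2 * m + 1) → MvPolynomial (Fin (N + 1)) ℂ) (c : ℕ) (d : Fin (2 * m + 1) → ℕ)
    (hskew : M.transpose = -M) (hadj : ∀ i j, M.adjugate i j = f i * f j)
    (hM : ∀ i j, (M i j).IsHomogeneous (c - d i - d j))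
    (hM0 : ∀ i j, c < d i + d j → M i j = 0)
    (hf : ∀ i, (f i).IsHomogeneous (d i))
    (hk : ∃ i, f i ≠ 0 ∧ d i = k) (hmin : ∀ i, f i ≠ 0 → k ≤ d i)
    (hN : 2 * k < N) (p : Fin (N + 1) → ℂ) (hp : p ≠ 0) : OnSecant k f p := by
  classical
  obtain ⟨i0, hi0, rfl⟩ := hk
  have hdet0 : M.det = 0 := by
    have h1 : M.det = -M.det := by
      conv_lhs => rw [← Matrix.det_transpose, hskew, Matrix.det_neg]
      simp [pow_add, pow_mul]
    exact self_eq_neg.1 h1
  have hMf : ∀ i, ∑ l, M i l * f l = 0 := by
    intro i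
    have h1 := congrFun (congrFun (Matrix.mul_adjugate M) i) i0
    rw [hdet0, zero_smul, Matrix.mul_apply, Matrix.zero_apply] at h1
    simp only [hadj] at h1
    have h2 : (∑ l, M i l * f l) * f i0 = 0 := by
      rw [Finset.sum_mul, ← h1]
      exact Finset.sum_congr rfl fun l _ => by ring
    exact (mul_eq_zero.1 h2).resolve_right hi0
  have hdetA : (M.submatrix i0.succAbove i0.succAbove).det = f i0 * f i0 := by
    rw [← hadj, Matrix.adjugate_fin_succ_eq_det_submatrix, ← two_mul, pow_mul]
    simp
  have hdetA0 : (M.submatrix i0.succAbove i0.succAbove).det ≠ 0 := by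
    rw [hdetA]; exact mul_ne_zero hi0 hi0
  have hA : ∀ i l, ((M.submatrix i0.succAbove i0.succAbove) i l).IsHomogeneous
      ((c - d (i0.succAbove i)) - d (i0.succAbove l)) := fun i l => hM _ _
  have hA0 : ∀ i l, c - d (i0.succAbove i) < d (i0.succAbove l) →
      (M.submatrix i0.succAbove i0.succAbove) i l = 0 := fun i l h => hM0 _ _ (by omega)
  have hsum := sum_le (c := fun i => c - d (i0.succAbove i)) (d := fun l => d (i0.succAbove l))
    hA0 hdetA0
  have hdeg := (det_hom (c := fun i => c - d (i0.succAbove i)) (d := fun l => d (i0.succAbove l))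
    hA hA0).inj_right (by rw [hdetA]; exact (hf i0).mul (hf i0)) hdetA0
  have hmain := syzygies (e := 2 * d i0) (f i0) (fun l => f (i0.succAbove l))
    (M.submatrix i0.succAbove i0.succAbove) (fun i => M (i0.succAbove i) i0) (d i0)
    (fun i => c - d (i0.succAbove i)) (fun l => d (i0.succAbove l)) (hf i0) (fun l => hf _)
    hA hA0 (fun i => hM _ _)
    (by
      intro i
      have h1 := hMf (i0.succAbove i)
      rw [Fin.sum_univ_succAbove _ i0] at h1
      simp only [Matrix.submatrix_apply]
      linear_combination h1)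
    hi0 (fun l => hmin _) hdetA0 (by omega) hN p hp
  obtain ⟨v, hv, h, hh, hh0, hdvd⟩ := hmain
  refine ⟨v, hv, h, hh, hh0, fun F hF => hdvd F (Ideal.span_mono ?_ hF)⟩
  rintro _ ⟨j, rfl⟩
  by_cases hj : j = i0
  · subst hj; exact ⟨none, rfl⟩
  · obtain ⟨l, rfl⟩ := Fin.exists_succAbove_eq hj
    exact ⟨some l, rfl⟩

end Pool.Agent.SecFillB48
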