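import Pool.Agent.SecFillB48.DetBase
import Pool.Agent.SecFillB48.Main
import Pool.Agent.SecPf.Family

/-!
# Multisecant lines of determinantal schemes
-/

set_option autoImplicit false

open Filter Topology MvPolynomial

namespace Pool.Agent.SecFillB48

open Pool.Agent.SecFill Pool.Agent.SecPf

lemma det_hom_gen {σ R : Type} [CommRing R] {m : ℕ}
    {A : Matrix (Fin m) (Fin m) (MvPolynomial σ R)} {c d : Fin m → ℕ}
    (hA : ∀ i l, (A i l).IsHomogeneous (c i - d l)) (hA0 : ∀ i l, c i < d l → A i l = 0) :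
    A.det.IsHomogeneous (∑ i, c i - ∑ l, d l) := by
  rw [Matrix.det_apply]
  refine IsHomogeneous.sum _ _ _ fun σ _ => ?_
  by_cases hσ : ∀ i, d i ≤ c (σ i)
  · have h1 : (∏ i, A (σ i) i).IsHomogeneous (∑ i, (c (σ i) - d i)) :=
      IsHomogeneous.prod _ _ _ fun i _ => hA _ _
    have h2 : ∑ i, (c (σ i) - d i) = ∑ i, c i - ∑ l, d l := by
      have h3 : ∑ i, (c (σ i) - d i) + ∑ i, d i = ∑ i, c (σ i) := by
        rw [← Finset.sum_add_distrib]
        exact Finset.sum_congr rfl fun i _ => Nat.sub_add_cancel (hσ i)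
      rw [Equiv.sum_comp σ c] at h3
      omega
    rw [h2] at h1
    rcases Int.units_eq_one_or (Equiv.Perm.sign σ) with h | h
    · rw [h, one_smul]; exact h1
    · rw [h, Units.neg_smul, one_smul]; exact h1.neg
  · push Not at hσ
    obtain ⟨i, hi⟩ := hσ
    have h0 : ∏ i, A (σ i) i = 0 := Finset.prod_eq_zero (Finset.mem_univ i) (hA0 _ _ hi)
    rw [h0, smul_zero]
    exact isHomogeneous_zero _ _ _

/-- The first columns have the greatest weight. -/
lemma sum_le_top {m r : ℕ} (d : Fin m ⊕ Fin r → ℕ) (hmax : ∀ i j, d (Sum.inr j) ≤ d (Sum.inl i))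
    (κ : Fin m → Fin m ⊕ Fin r) (hκ : Function.Injective κ) :
    ∑ i, d (κ i) ≤ ∑ i, d (Sum.inl i) := by
  classical
  set τ : ℕ := Finset.univ.sup (fun j : Fin r => d (Sum.inr j)) with hτ
  have h1 : ∀ j, d (Sum.inr j) ≤ τ := fun j =>
    Finset.le_sup (f := fun j : Fin r => d (Sum.inr j)) (Finset.mem_univ j)
  have h2 : ∀ i, τ ≤ d (Sum.inl i) := fun i => Finset.sup_le fun j _ => hmax i j
  have h3 : ∑ i, d (κ i) ≤ ∑ i : Fin m, (τ + (d (κ i) - τ)) :=
    Finset.sum_le_sum fun i _ => by omega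
  have h4 : ∑ i, (d (κ i) - τ) ≤ ∑ y, (d y - τ) := by
    rw [← Finset.sum_image (s := Finset.univ) (g := κ) (f := fun y => d y - τ)
      (fun a _ b _ h => hκ h)]
    exact Finset.sum_le_sum_of_subset (Finset.subset_univ _)
  have h5 : ∑ y, (d y - τ) = ∑ i, (d (Sum.inl i) - τ) := by
    rw [Fintype.sum_sum_type]
    have : ∑ j : Fin r, (d (Sum.inr j) - τ) = 0 :=
      Finset.sum_eq_zero fun j _ => Nat.sub_eq_zero_of_le (h1 j)
    rw [this, add_zero]
  have h6 : ∑ i : Fin m, (τ + (d (Sum.inl i) - τ)) = ∑ i, d (Sum.inl i) :=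
    Finset.sum_congr rfl fun i _ => by have := h2 i; omega
  rw [Finset.sum_add_distrib] at h3 h6
  omega

namespace DatD

variable {N k m r : ℕ} (S : DatD N k m r)

lemma sg_hom : S.sg.IsHomogeneous 1 := isHomogeneous_C_mul_X _ _

lemma et_hom (j : Fin (N + 1)) : (S.et j).IsHomogeneous 1 :=
  (isHomogeneous_X _ _).sub (isHomogeneous_C_mul_X _ _)

lemma lin_hom (t : ℂ) : (S.lin t).IsHomogeneous 1 := by
  have h : (C t * S.et S.e0).IsHomogeneous 1 := by
    simpa using (isHomogeneous_C _ t).mul (S.et_hom S.e0)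
  exact S.sg_hom.sub h

lemma aP_hom (i : Fin m) : (S.aP i).IsHomogeneous (S.D i) := by
  have := IsHomogeneous.prod Finset.univ (fun b : Fin (S.D i) => S.lin (S.θ ⟨i, b⟩))
    (fun _ => 1) (fun b _ => S.lin_hom _)
  simpa [aP] using this

lemma qP_hom (l : Fin k) : (S.qP l).IsHomogeneous (S.D (S.ρ l).1 - 1) := by
  have := IsHomogeneous.prod (Finset.univ.erase (S.ρ l).2)
    (fun b => S.lin (S.θ ⟨(S.ρ l).1, b⟩)) (fun _ => 1) (fun b _ => S.lin_hom _)
  simpa [qP, Finset.card_erase_of_mem] using this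

lemma sP_hom (hE : ∀ i j, S.D i ≤ S.E i j) (i : Fin m) (j : Fin r) :
    (S.sP i j).IsHomogeneous (S.E i j) := by
  refine IsHomogeneous.sum _ _ _ fun l _ => ?_
  split_ifs with h
  · have h1 := ((S.et_hom (S.e (l, j))).mul (S.qP_hom l)).mul
      ((S.et_hom S.e0).pow (S.E i j - S.D i))
    have h2 := hE i j
    have h3 : 0 < S.D (S.ρ l).1 := (Fin.pos (S.ρ l).2)
    have h4 : 1 + (S.D (S.ρ l).1 - 1) + 1 * (S.E i j - S.D i) = S.E i j := by
      rw [h] at h3 ⊢; omega
    rwa [h4] at h1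
  · exact isHomogeneous_zero _ _ _

variable {c : Fin m → ℕ} {d : Fin m ⊕ Fin r → ℕ}

lemma A0_hom (hD : ∀ i, S.D i + d (Sum.inl i) = c i) (hE : ∀ i j, S.E i j + d (Sum.inr j) = c i)
    (hmax : ∀ i j, d (Sum.inr j) ≤ d (Sum.inl i)) (i : Fin m) (y : Fin m ⊕ Fin r) :
    (S.A0 i y).IsHomogeneous (c i - d y) := by
  rcases y with i' | j
  · show (if i = i' then S.aP i else 0 : MvPolynomial (Fin (N + 1)) ℂ).IsHomogeneous _
    split_ifs with h
    · subst h
      have h1 := S.aP_hom i
      have h2 : c i - d (Sum.inl i) = S.D i := by have := hD i; omega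
      rwa [h2]
    · exact isHomogeneous_zero _ _ _
  · show (S.sP i j).IsHomogeneous _
    have h2 : c i - d (Sum.inr j) = S.E i j := by have := hE i j; omega
    rw [h2]
    refine S.sP_hom (fun i j => ?_) i j
    have := hD i
    have := hE i j
    have := hmax i j
    omega

lemma A0_zero (hD : ∀ i, S.D i + d (Sum.inl i) = c i) (hE : ∀ i j, S.E i j + d (Sum.inr j) = c i)
    (i : Fin m) (y : Fin m ⊕ Fin r) (h : c i < d y) : S.A0 i y = 0 := by
  rcases y with i' | j
  · show (if i = i' then S.aP i else 0 : MvPolynomial (Fin (N + 1)) ℂ) = 0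
    split_ifs with h1
    · subst h1
      have := hD i
      omega
    · rfl
  · have := hE i j
    omega

/-- The line of matrices. -/
noncomputable def fam : Matrix (Fin m) (Fin m ⊕ Fin r) (MvPolynomial (Fin (N + 1)) (Polynomial ℂ)) :=
  fun x y => map Polynomial.C (S.A0 x y) + C Polynomial.X * map Polynomial.C (S.B x y)

lemma map_fam (z : ℂ) (x : Fin m) (y : Fin m ⊕ Fin r) :
    map (Polynomial.evalRingHom z) (S.fam x y) = S.A0 x y + C z * S.B x y := by
  have h : (Polynomial.evalRingHom z).comp Polynomial.C = RingHom.id ℂ := by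
    ext a
    simp
  show MvPolynomial.map (Polynomial.evalRingHom z) (MvPolynomial.map Polynomial.C (S.A0 x y) +
    C Polynomial.X * MvPolynomial.map Polynomial.C (S.B x y)) = _
  rw [map_add, map_mul, MvPolynomial.map_map, MvPolynomial.map_map, h, MvPolynomial.map_id,
    MvPolynomial.map_id, map_C]
  simp

/-- A maximal minor of the line of matrices. -/
noncomputable def minor (κ : Fin m → Fin m ⊕ Fin r) : MvPolynomial (Fin (N + 1)) (Polynomial ℂ) :=
  (Matrix.of fun i i' => S.fam i (κ i')).det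

lemma map_minor (z : ℂ) (κ : Fin m → Fin m ⊕ Fin r) :
    map (Polynomial.evalRingHom z) (S.minor κ) =
      (Matrix.of fun i i' => S.A0 i (κ i') + C z * S.B i (κ i')).det := by
  rw [minor, RingHom.map_det]
  congr 1
  ext1 i i'
  simp only [RingHom.mapMatrix_apply, Matrix.map_apply, Matrix.of_apply]
  exact S.map_fam z _ _

lemma eval_minor (z τ : ℂ) (ξ : Fin k × Fin r → ℂ) (κ : Fin m → Fin m ⊕ Fin r) :
    eval (S.pt τ ξ) (map (Polynomial.evalRingHom z) (S.minor κ)) =
      (Matrix.of fun i i' => S.Mz z τ ξ i (κ i')).det := by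
  rw [map_minor, RingHom.map_det]
  congr 1
  ext1 i i'
  simp [Mz]

/-- For small parameters there is a multisecant line through `p`. -/
lemma sec_near {M : ℕ} (F : Fin M → (Fin m → Fin m ⊕ Fin r)) :
    {z : ℂ | ∃ v H, Sec k (fun a => map (Polynomial.evalRingHom z)
      (S.minor (F a))) S.p S.j0 v H}.Infinite := by
  refine infinite_of_mem_nhds 0 ?_
  filter_upwards [S.near] with z hz
  obtain ⟨τ, ξ, hτ, h⟩ := hz
  refine ⟨S.vv ξ, ∏ j : Fin k, (Polynomial.X - Polynomial.C (τ j)), S.vv_j0 ξ, ?_, ?_, ?_, ?_⟩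
  · intro h0
    have := congrFun h0 S.e0
    rw [S.vv_e0] at this
    exact one_ne_zero this
  · exact Polynomial.monic_prod_of_monic _ _ fun j _ => Polynomial.monic_X_sub_C _
  · rw [Polynomial.natDegree_prod_of_monic _ _ fun j _ => Polynomial.monic_X_sub_C _]
    simp
  · intro a
    refine Finset.prod_dvd_of_coprime ?_ fun j _ => ?_
    · intro a _ b _ hab
      exact Polynomial.isCoprime_X_sub_C_of_isUnit_sub
        (sub_ne_zero.2 fun h => hab (hτ h)).isUnit
    · rw [Polynomial.dvd_iff_isRoot, Polynomial.IsRoot.def, dehom_eval, onLine_eval]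
      have h1 := S.eval_minor z (τ j) ξ (F a)
      rw [h j (F a)] at h1
      rw [← h1]
      congr 2
      funext l
      simp [pt]

end DatD

/-- Multisecant lines through a point where a maximal minor does not vanish. -/
theorem det_off {N k m r : ℕ} (hk : k * r < N)
    (M : Matrix (Fin m) (Fin m ⊕ Fin r) (MvPolynomial (Fin (N + 1)) ℂ))
    (c : Fin m → ℕ) (d : Fin m ⊕ Fin r → ℕ)
    (hM : ∀ i y, (M i y).IsHomogeneous (c i - d y)) (hM0 : ∀ i y, c i < d y → M i y = 0)
    (hmax : ∀ i j, d (Sum.inr j) ≤ d (Sum.inl i)) (hdiag : ∀ i, d (Sum.inl i) ≤ c i)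
    (hkd : k ≤ ∑ i, (c i - d (Sum.inl i))) {Q : ℕ} (F : Fin Q → (Fin m → Fin m ⊕ Fin r))
    (q : Fin (N + 1) → ℂ) (j0 : Fin (N + 1)) (hq : q j0 ≠ 0)
    (hne : ∃ a, eval q (M.submatrix id (F a)).det ≠ 0) :
    ∃ v H, Sec k (fun a => (M.submatrix id (F a)).det) q j0 v H := by
  classical
  obtain ⟨ec⟩ : Nonempty (Option (Fin k × Fin r) ↪ {j : Fin (N + 1) // j ≠ j0}) := by
    apply Function.Embedding.nonempty_of_card_le
    rw [Fintype.card_option, Fintype.card_prod, Fintype.card_fin, Fintype.card_fin,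
      Fintype.card_subtype_compl]
    simp
    omega
  obtain ⟨ρ⟩ : Nonempty (Fin k ↪ Σ i : Fin m, Fin (c i - d (Sum.inl i))) := by
    apply Function.Embedding.nonempty_of_card_le
    rw [Fintype.card_sigma, Fintype.card_fin]
    simpa using hkd
  let S0 : DatD N k m r :=
    { p := q, j0 := j0, hp := hq, D := fun i => c i - d (Sum.inl i)
      E := fun i j => c i - d (Sum.inr j)
      e0 := (ec none).1, he0 := (ec none).2
      e := fun a => (ec (some a)).1
      he := fun a b h => Option.some.inj (ec.injective (Subtype.ext h))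
      hej := fun a => (ec (some a)).2
      hee := fun a h => by
        have := ec.injective (Subtype.ext h)
        exact absurd this (by simp)
      θ := fun s => ((Fintype.equivFin _ s : ℕ) : ℂ)
      hθ := fun a b h => (Fintype.equivFin _).injective (Fin.ext (Nat.cast_injective (R := ℂ) h))
      ρ := ρ, hρ := ρ.injective, B := 0 }
  let S : DatD N k m r := { S0 with B := M - S0.A0 }
  have hD : ∀ i, S.D i + d (Sum.inl i) = c i := fun i => Nat.sub_add_cancel (hdiag i)
  have hE : ∀ i j, S.E i j + d (Sum.inr j) = c i := fun i j =>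
    Nat.sub_add_cancel ((hmax i j).trans (hdiag i))
  have hAS : S.A0 = S0.A0 := rfl
  have h1 : ∀ κ, map (Polynomial.evalRingHom 1) (S.minor κ) = (M.submatrix id κ).det := by
    intro κ
    rw [S.map_minor]
    congr 1
    ext1 i i'
    show S.A0 i (κ i') + C 1 * (M i (κ i') - S0.A0 i (κ i')) = M i (κ i')
    rw [hAS, C_1]
    ring
  have hA0h := S.A0_hom hD hE hmax
  have hA0z := S.A0_zero (c := c) (d := d) hD hE
  have hfh : ∀ i y, (S.fam i y).IsHomogeneous (c i - d y) := by
    intro i y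
    have hB : (M i y - S0.A0 i y).IsHomogeneous (c i - d y) := (hM i y).sub (hA0h i y)
    have h2 := (isHomogeneous_C (Fin (N + 1)) (Polynomial.X : Polynomial ℂ)).mul
      (hB.map (Polynomial.C : ℂ →+* Polynomial ℂ))
    rw [zero_add] at h2
    exact ((hA0h i y).map _).add h2
  have hfz : ∀ i y, c i < d y → S.fam i y = 0 := by
    intro i y h
    show map Polynomial.C (S.A0 i y) + C Polynomial.X * map Polynomial.C (M i y - S0.A0 i y) = 0
    rw [← hAS, hA0z i y h, hM0 i y h]
    simp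
  have hminor : ∀ κ, ¬ Function.Injective κ → S.minor κ = 0 := by
    intro κ hκ
    rw [Function.Injective] at hκ
    push Not at hκ
    obtain ⟨a, b, hab, hne'⟩ := hκ
    exact Matrix.det_zero_of_column_eq hne' fun i => by simp [hab]
  have hres := spec (k := k) (fun a => S.minor (F a))
    (fun a => if Function.Injective (F a) then ∑ i, c i - ∑ l, d (F a l) else k)
    (fun a => by
      split_ifs with h
      · exact det_hom_gen (A := Matrix.of fun i i' => S.fam i (F a i')) (c := c)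
          (d := fun l => d (F a l)) (fun i l => hfh i _) (fun i l => hfz i _)
      · rw [hminor _ h]; exact isHomogeneous_zero _ _ _)
    (fun a => by
      split_ifs with h
      · have h2 := sum_le_top d hmax (F a) h
        have h3 : ∑ i, (c i - d (Sum.inl i)) + ∑ i, d (Sum.inl i) = ∑ i, c i := by
          rw [← Finset.sum_add_distrib]
          exact Finset.sum_congr rfl fun i _ => Nat.sub_add_cancel (hdiag i)
        omega
      · exact le_rfl)
    S.p S.j0 (S.sec_near F) (by
      obtain ⟨a, ha⟩ := hne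
      exact ⟨a, by rw [h1]; exact ha⟩)
  simp only [h1] at hres
  exact hres

/-- **Multisecant lines of determinantal schemes**, columns labelled by a sum. -/
theorem det_sum {N k m r : ℕ} (hk : k * r < N)
    (M : Matrix (Fin m) (Fin m ⊕ Fin r) (MvPolynomial (Fin (N + 1)) ℂ))
    (c : Fin m → ℕ) (d : Fin m ⊕ Fin r → ℕ)
    (hM : ∀ i y, (M i y).IsHomogeneous (c i - d y)) (hM0 : ∀ i y, c i < d y → M i y = 0)
    (hmax : ∀ i j, d (Sum.inr j) ≤ d (Sum.inl i)) (hdiag : ∀ i, d (Sum.inl i) ≤ c i)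
    (hkd : k ≤ ∑ i, (c i - d (Sum.inl i))) (hdet : (M.submatrix id Sum.inl).det ≠ 0)
    (p : Fin (N + 1) → ℂ) (hp : p ≠ 0) :
    OnSecant k (fun κ : Fin m → Fin m ⊕ Fin r => (M.submatrix id κ).det) p := by
  classical
  obtain ⟨j0, hj0⟩ : ∃ j0, p j0 ≠ 0 := by
    by_contra hcon
    push Not at hcon
    exact hp (funext hcon)
  let eqv := Fintype.equivFin (Fin m → Fin m ⊕ Fin r)
  have hmz : ∀ κ : Fin m → Fin m ⊕ Fin r, ¬ Function.Injective κ → (M.submatrix id κ).det = 0 := by
    intro κ hκ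
    rw [Function.Injective] at hκ
    push Not at hκ
    obtain ⟨a, b, hab, hne'⟩ := hκ
    exact Matrix.det_zero_of_column_eq hne' fun i => by simp [hab]
  obtain ⟨v, hv, h, hh, hh0, hdvd⟩ := fill_of_off (k := k)
    (fun a => (M.submatrix id (eqv.symm a)).det)
    (fun a => if Function.Injective (eqv.symm a) then ∑ i, c i - ∑ l, d (eqv.symm a l) else k)
    (fun a => by
      split_ifs with h
      · exact det_hom_gen (A := M.submatrix id (eqv.symm a)) (c := c)
          (d := fun l => d (eqv.symm a l)) (fun i l => hM i _) (fun i l => hM0 i _)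
      · rw [hmz _ h]; exact isHomogeneous_zero _ _ _)
    (fun a => by
      split_ifs with h
      · have h2 := sum_le_top d hmax (eqv.symm a) h
        have h3 : ∑ i, (c i - d (Sum.inl i)) + ∑ i, d (Sum.inl i) = ∑ i, c i := by
          rw [← Finset.sum_add_distrib]
          exact Finset.sum_congr rfl fun i _ => Nat.sub_add_cancel (hdiag i)
        omega
      · exact le_rfl)
    ⟨eqv Sum.inl, by simpa using hdet⟩ p j0 hj0
    (fun q hq hne => det_off hk M c d hM hM0 hmax hdiag hkd (fun a => eqv.symm a) q j0 hq hne)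
  refine ⟨v, hv, h, hh, hh0, fun F hF => hdvd F (Ideal.span_mono ?_ hF)⟩
  rintro _ ⟨κ, rfl⟩
  exact ⟨eqv κ, by simp⟩

/-- **Multisecant lines of determinantal schemes.** -/
theorem det_main {N k m r : ℕ} (hk : k * r < N)
    (M : Matrix (Fin m) (Fin (m + r)) (MvPolynomial (Fin (N + 1)) ℂ))
    (c : Fin m → ℕ) (d : Fin (m + r) → ℕ)
    (hM : ∀ i j, (M i j).IsHomogeneous (c i - d j)) (hM0 : ∀ i j, c i < d j → M i j = 0)
    (κ0 : Fin m → Fin (m + r)) (hmax : ∀ j, j ∉ Set.range κ0 → ∀ i, d j ≤ d (κ0 i))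
    (hdet : (M.submatrix id κ0).det ≠ 0)
    (hX : ∀ F ∈ Ideal.span (Set.range fun κ : Fin m → Fin (m + r) => (M.submatrix id κ).det),
      F ≠ 0 → ∀ e, F.IsHomogeneous e → k ≤ e)
    (p : Fin (N + 1) → ℂ) (hp : p ≠ 0) :
    OnSecant k (fun κ : Fin m → Fin (m + r) => (M.submatrix id κ).det) p := by
  classical
  have hinj0 : Function.Injective κ0 := by
    intro a b hab
    by_contra hne
    apply hdet
    exact Matrix.det_zero_of_column_eq hne fun i => by simp [hab]
  obtain ⟨σ, hσ⟩ := exists_perm (A := M.submatrix id κ0) (c := c) (d := fun l => d (κ0 l))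
    (fun i l => hM0 i (κ0 l)) hdet
  -- the columns reordered
  let κ1 : Fin m → Fin (m + r) := fun i => κ0 (σ.symm i)
  have hinj1 : Function.Injective κ1 := hinj0.comp σ.symm.injective
  have hrange : ∀ j, j ∉ Set.range κ1 → j ∉ Set.range κ0 := by
    rintro j hj ⟨l, rfl⟩
    exact hj ⟨σ l, by simp [κ1]⟩
  have hcard : Fintype.card {j : Fin (m + r) // j ∉ Set.range κ1} = r := by
    rw [Fintype.card_subtype_compl, Set.card_range_of_injective hinj1]
    simp
  let eK : {j : Fin (m + r) // j ∉ Set.range κ1} ≃ Fin r := Fintype.equivFinOfCardEq hcard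
  let Ψf : Fin m ⊕ Fin r → Fin (m + r) := Sum.elim κ1 (fun j => (eK.symm j).1)
  have hΨ : Function.Bijective Ψf := by
    constructor
    · rintro (a | a) (b | b) hab
      · exact congrArg Sum.inl (hinj1 hab)
      · exact absurd ⟨a, hab⟩ (eK.symm b).2
      · exact absurd ⟨b, hab.symm⟩ (eK.symm a).2
      · exact congrArg Sum.inr (eK.symm.injective (Subtype.ext hab))
    · intro j
      by_cases hj : j ∈ Set.range κ1
      · obtain ⟨i, rfl⟩ := hj
        exact ⟨Sum.inl i, rfl⟩
      · exact ⟨Sum.inr (eK ⟨j, hj⟩), by simp [Ψf]⟩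
  let Ψ := Equiv.ofBijective Ψf hΨ
  have hdiag : ∀ i, d (κ1 i) ≤ c i := by
    intro i
    have := hσ (σ.symm i)
    simpa [κ1] using this
  have hdet1 : (M.submatrix id κ1).det ≠ 0 := by
    have h1 : M.submatrix id κ1 = (M.submatrix id κ0).submatrix id σ.symm := rfl
    rw [h1, Matrix.det_permute']
    refine mul_ne_zero ?_ hdet
    rcases Int.units_eq_one_or (Equiv.Perm.sign σ.symm) with h | h <;> rw [h] <;> simp
  have hhom := det_hom_gen (A := M.submatrix id κ1) (c := c) (d := fun l => d (κ1 l))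
    (fun i l => hM i (κ1 l)) (fun i l => hM0 i (κ1 l))
  have hkd : k ≤ ∑ i, (c i - d (κ1 i)) := by
    have h1 := hX _ (Ideal.subset_span ⟨κ1, rfl⟩) hdet1 _ hhom
    have h3 : ∑ i, (c i - d (κ1 i)) + ∑ i, d (κ1 i) = ∑ i, c i := by
      rw [← Finset.sum_add_distrib]
      exact Finset.sum_congr rfl fun i _ => Nat.sub_add_cancel (hdiag i)
    omega
  obtain ⟨v, hv, h, hh, hh0, hdvd⟩ := det_sum (k := k) hk (M.submatrix id Ψf) c (fun y => d (Ψf y))
    (fun i y => hM i (Ψf y)) (fun i y => hM0 i (Ψf y))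
    (fun i j => hmax _ (hrange _ (eK.symm j).2) _) hdiag hkd hdet1 p hp
  refine ⟨v, hv, h, hh, hh0, fun F hF => hdvd F (Ideal.span_mono ?_ hF)⟩
  rintro _ ⟨κ, rfl⟩
  refine ⟨fun i => Ψ.symm (κ i), ?_⟩
  show ((M.submatrix id Ψf).submatrix id (fun i => Ψ.symm (κ i))).det = (M.submatrix id κ).det
  congr 1
  ext1 i l
  show M i (Ψ (Ψ.symm (κ l))) = M i (κ l)
  rw [Equiv.apply_symm_apply]

end Pool.Agent.SecFillB48
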